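import Mathlib
import Pool.Agent.Helper17.TP.Fin

/-!
MP_7680f0_co, a partial result on Q1: all but an exponentially small fraction of the t-perfect
graphs on `n` labelled vertices are 3-colourable (in particular 4-colourable) and have an explicit
typical structure.

* `TPA.TPerfect G`: literally the hypothesis of the frozen statement (`STAB = TSTAB`, where `TSTAB`
  is given by nonnegativity, edge and odd cycle inequalities).
* `TPA.TP G`: every point of `TSTAB` with all coordinates at most 1 is in `STAB`; this is
  t-perfection in the usual convention (it is implied by `TPA.TPerfect G`, and is equivalent to it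
  for graphs without isolated vertices; with the literal definition a graph with an isolated vertex
  is never t-perfect).  So the left side below counts all exceptional t-perfect graphs in either
  convention, the right side only graphs which are t-perfect in both.
* `Typical G`: there are disjoint `A₁, A₂ ⊆ A` such that no edge has both ends outside `A` and the
  edges inside `A` are exactly the pairs between `A₁` and `A₂`.
-/

namespace Pool.Agent.Results.MP_7680f0_co.AlmostAll

open Pool.Agent.Helper17.TP

theorem result :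
    ∃ c > (0 : ℝ), ∃ n₀ : ℕ, ∀ n ≥ n₀,
      ({G : SimpleGraph (Fin n) | TPA.TP G ∧ ¬ (Typical G ∧ G.Colorable 3)}.ncard : ℝ)
        ≤ 2 ^ (-(c * n)) *
          ({G : SimpleGraph (Fin n) | TPA.TPerfect G ∧ Typical G ∧ G.Colorable 3}.ncard : ℝ) := by
  obtain ⟨c, hc, n₀, h⟩ := final_count
  refine ⟨c, hc, n₀, fun n hn => ?_⟩
  have h0 : (0 : ℝ) ≤ 2 ^ (-(c * n)) := by positivity
  have h1 : {G : SimpleGraph (Fin n) | TPA.TP G ∧ ¬ (Typical G ∧ G.Colorable 3)}.ncard ≤
      {G : SimpleGraph (Fin n) | TPA.TP G ∧ ¬ Typical G}.ncard := by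
    apply Set.ncard_le_ncard _ (Set.toFinite _)
    rintro G ⟨h1, h2⟩
    exact ⟨h1, fun h3 => h2 ⟨h3, typical_colorable h3⟩⟩
  have h2 : {G : SimpleGraph (Fin n) | Typical G ∧ ∀ v, ∃ u, G.Adj v u}.ncard ≤
      {G : SimpleGraph (Fin n) | TPA.TPerfect G ∧ Typical G ∧ G.Colorable 3}.ncard := by
    apply Set.ncard_le_ncard _ (Set.toFinite _)
    rintro G ⟨h1, h2⟩
    exact ⟨typical_tPerfect h1 h2, h1, typical_colorable h1⟩
  calc ({G : SimpleGraph (Fin n) | TPA.TP G ∧ ¬ (Typical G ∧ G.Colorable 3)}.ncard : ℝ)
      ≤ ({G : SimpleGraph (Fin n) | TPA.TP G ∧ ¬ Typical G}.ncard : ℝ) := by exact_mod_cast h1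
    _ ≤ _ := h n hn
    _ ≤ _ := mul_le_mul_of_nonneg_left (by exact_mod_cast h2) h0

end Pool.Agent.Results.MP_7680f0_co.AlmostAll
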