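import Pool.Agent.Helper55.TE.Core

/-!
# MP_7680f0_co: t-perfect graphs are 4-colourable up to few edges

For every t-perfect graph `G` and every `m` there is a random colouring with `m + 1` colours such that every edge is
monochromatic with probability at most `1 / (3 · 5 ⋯ (2 m + 1))`: with 4 colours, at most `1 / 105`. So every
subgraph of a t-perfect graph with fewer than `3 · 5 ⋯ (2 m + 1)` edges is `(m + 1)`-colourable; with at most 104 edges
it is 4-colourable.
-/

set_option autoImplicit false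

namespace Pool.Agent.Results.MP_7680f0_co.RandomColouring

open scoped Nat

/-- A finite graph is t-perfect if every point with coordinates in `[0, 1]` that satisfies the edge inequalities and the
odd cycle inequalities is a convex combination of the incidence vectors of the stable sets. (For graphs without
isolated vertices this is `STAB(G) = TSTAB(G)`; in general it is implied by it.) -/
def TPerfect {V : Type} [Fintype V] [DecidableEq V] (G : SimpleGraph V) : Prop :=
  ∀ x : V → ℝ, (∀ v, 0 ≤ x v ∧ x v ≤ 1) → (∀ u v, G.Adj u v → x u + x v ≤ 1) →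
    (∀ (u : V) (c : G.Walk u u), c.IsCycle → Odd c.length →
      ∑ v ∈ c.support.tail.toFinset, x v ≤ ((c.length : ℝ) - 1) / 2) →
    x ∈ convexHull ℝ {y : V → ℝ | ∃ S : Set V, G.IsIndepSet S ∧ y = S.indicator (fun _ => (1 : ℝ))}

lemma tp_of {V : Type} [Fintype V] [DecidableEq V] {G : SimpleGraph V} (h : TPerfect G) : TPA.TP G :=
  fun x hx hx1 => h x (fun v => ⟨hx.1 v, hx1 v⟩) hx.2.1 hx.2.2

lemma prod_eq (m : ℕ) : ∏ i ∈ Finset.range m, (2 * (((1 : ℕ) : ℝ) + i) + 1) = ((2 * m + 1)‼ : ℝ) := by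
  induction m with
  | zero => simp
  | succ m ih =>
    rw [Finset.prod_range_succ, ih, show 2 * (m + 1) + 1 = (2 * m + 1) + 2 by ring, Nat.doubleFactorial_add_two]
    push_cast
    ring

/-- Let `G` be t-perfect. There is a probability distribution `μ` on the colourings of the vertices with the colours
`0, …, m` such that every edge is monochromatic with probability at most `1 / (2 m + 1)‼`, and, with probability one,
all monochromatic edges have colour `0` and no odd cycle in colour `0` is shorter than `2 m + 3`. Every subgraph `H` of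
`G` with fewer than `(2 m + 1)‼ = 3 · 5 ⋯ (2 m + 1)` edges is `(m + 1)`-colourable. -/
theorem result {V : Type} [Fintype V] [DecidableEq V] (G : SimpleGraph V) (hG : TPerfect G) (m : ℕ) :
    (∃ μ : (V → Fin (m + 1)) → ℝ, (∀ f, 0 ≤ μ f) ∧ ∑ f, μ f = 1 ∧
      (∀ u v, G.Adj u v → ∑ f with f u = f v, μ f ≤ 1 / ((2 * m + 1)‼ : ℝ)) ∧
      ∀ f, μ f ≠ 0 → (∀ u v, G.Adj u v → f u = f v → f u = 0) ∧
        ∀ (u : V) (c : G.Walk u u), c.IsCycle → Odd c.length → (∀ v ∈ c.support, f v = 0) → 2 * m + 3 ≤ c.length) ∧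
    ∀ H ≤ G, H.edgeSet.ncard < (2 * m + 1)‼ → H.Colorable (m + 1) := by
  classical
  have key : ∃ μ : (V → Fin (m + 1)) → ℝ, (∀ f, 0 ≤ μ f) ∧ ∑ f, μ f = 1 ∧
      (∀ u v, G.Adj u v → ∑ f with f u = f v, μ f ≤ 1 / ((2 * m + 1)‼ : ℝ)) ∧
      ∀ f, μ f ≠ 0 → (∀ u v, G.Adj u v → f u = f v → f u = 0) ∧
        ∀ (u : V) (c : G.Walk u u), c.IsCycle → Odd c.length → (∀ v ∈ c.support, f v = 0) → 2 * m + 3 ≤ c.length := by
    obtain ⟨ι, t, lam, f, hpos, hsum, hf, hE⟩ := Helper55.TE.colouring (tp_of hG) m (W := Finset.univ) (l := 1) le_rfl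
      (fun u c hc _ _ => hc.three_le_length)
    rw [prod_eq] at hE
    obtain ⟨g, hg⟩ : ∃ g : ι → V → Fin (m + 1), ∀ i ∈ t, ∀ v, (g i v : ℕ) = f i v := by
      refine ⟨fun i v => ⟨min (f i v) m, by omega⟩, fun i hi v => ?_⟩
      exact min_eq_left ((hf i hi).1 v)
    have hsumP : ∀ (P : (V → Fin (m + 1)) → Prop) [DecidablePred P], ∑ F with P F, ∑ i ∈ t with g i = F, lam i = ∑ i ∈ t with P (g i), lam i := by
      intro P _
      rw [Finset.sum_filter, Finset.sum_filter]
      have e1 : ∀ F, (if P F then ∑ i ∈ t with g i = F, lam i else 0) = ∑ i ∈ t, if g i = F then (if P F then lam i else 0) else 0 := by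
        intro F
        by_cases h : P F
        · simp only [if_pos h, Finset.sum_filter]
        · simp only [if_neg h, ite_self, Finset.sum_const_zero]
      rw [Finset.sum_congr rfl fun F _ => e1 F, Finset.sum_comm]
      refine Finset.sum_congr rfl fun i _ => ?_
      rw [Finset.sum_ite_eq]
      simp
    refine ⟨fun F => ∑ i ∈ t with g i = F, lam i, fun F => ?_, ?_, ?_, ?_⟩
    · exact Finset.sum_nonneg fun i hi => (hpos i (Finset.mem_filter.1 hi).1).le
    · have := hsumP fun _ => True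
      simp only [Finset.filter_true] at this
      rw [this, hsum]
    · intro u v huv
      show ∑ F with F u = F v, ∑ i ∈ t with g i = F, lam i ≤ _
      rw [hsumP fun F => F u = F v]
      refine le_trans (le_of_eq ?_) (hE u v huv (Finset.mem_univ _) (Finset.mem_univ _))
      refine Finset.sum_congr (Finset.filter_congr fun i hi => ?_) fun _ _ => rfl
      rw [← hg i hi u, ← hg i hi v, Fin.val_inj]
    · intro F hF
      obtain ⟨i, hi, rfl⟩ : ∃ i ∈ t, g i = F := by
        by_contra hcon
        push Not at hcon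
        apply hF
        refine Finset.sum_eq_zero fun i hi => ?_
        exact absurd (Finset.mem_filter.1 hi).2 (hcon i (Finset.mem_filter.1 hi).1)
      obtain ⟨-, h2, h3⟩ := hf i hi
      refine ⟨fun u v huv h4 => ?_, fun u c hc ho h4 => ?_⟩
      · have h5 := h2 u v huv (Finset.mem_univ _) (Finset.mem_univ _) (by rw [← hg i hi u, ← hg i hi v, h4])
        rw [← hg i hi u] at h5
        exact Fin.ext h5
      · have h5 := h3 u c hc ho fun v hv => by
          refine Finset.mem_filter.2 ⟨Finset.mem_univ _, ?_⟩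
          rw [← hg i hi v, h4 v (List.mem_of_mem_tail hv)]
          rfl
        omega
  refine ⟨key, fun H hH hcard => ?_⟩
  obtain ⟨μ, h0, h1, h2, -⟩ := key
  obtain ⟨E, hE⟩ : ∃ E : Finset (Sym2 V), (E : Set (Sym2 V)) = H.edgeSet := ⟨H.edgeSet.toFinset, by simp⟩
  have hcard' : (E.card : ℝ) < ((2 * m + 1)‼ : ℝ) := by
    rw [← hE, Set.ncard_coe_finset] at hcard
    exact_mod_cast hcard
  have hd : (0 : ℝ) < ((2 * m + 1)‼ : ℝ) := lt_of_le_of_lt (Nat.cast_nonneg _) hcard'
  have hmono : ∀ e ∈ E, ∑ F with ∀ u ∈ e, ∀ v ∈ e, F u = F v, μ F ≤ 1 / ((2 * m + 1)‼ : ℝ) := by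
    intro e he
    have he' : e ∈ H.edgeSet := by
      rw [← hE]
      exact he
    induction e using Sym2.ind with
    | _ u v =>
      refine le_trans (Finset.sum_le_sum_of_subset_of_nonneg (fun F hF => ?_) fun F _ _ => h0 F) (h2 u v (hH he'))
      refine Finset.mem_filter.2 ⟨Finset.mem_univ _, ?_⟩
      exact (Finset.mem_filter.1 hF).2 u (by simp) v (by simp)
  obtain ⟨F, hF⟩ : ∃ F : V → Fin (m + 1), ∀ e ∈ E, ¬ ∀ u ∈ e, ∀ v ∈ e, F u = F v := by
    by_contra hcon
    push Not at hcon
    have h3 : ∑ F, μ F ≤ ∑ F, ∑ e ∈ E, if ∀ u ∈ e, ∀ v ∈ e, F u = F v then μ F else 0 := by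
      refine Finset.sum_le_sum fun F _ => ?_
      obtain ⟨e, he, h4⟩ := hcon F
      refine le_trans (le_of_eq ?_) (Finset.single_le_sum (f := fun e => if ∀ u ∈ e, ∀ v ∈ e, F u = F v then μ F else 0) (fun e _ => ?_) he)
      · show μ F = if ∀ u ∈ e, ∀ v ∈ e, F u = F v then μ F else 0
        rw [if_pos h4]
      · show 0 ≤ if ∀ u ∈ e, ∀ v ∈ e, F u = F v then μ F else 0
        split_ifs
        · exact h0 F
        · exact le_refl _
    rw [h1, Finset.sum_comm] at h3
    have h4 : ∑ e ∈ E, ∑ F : V → Fin (m + 1), (if ∀ u ∈ e, ∀ v ∈ e, F u = F v then μ F else 0) ≤ E.card * (1 / ((2 * m + 1)‼ : ℝ)) := by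
      rw [← nsmul_eq_mul]
      refine Finset.sum_le_card_nsmul _ _ _ fun e he => ?_
      rw [← Finset.sum_filter]
      exact hmono e he
    have h5 : (E.card : ℝ) * (1 / ((2 * m + 1)‼ : ℝ)) < 1 := by
      rw [mul_one_div, div_lt_one hd]
      exact hcard'
    linarith
  refine ⟨SimpleGraph.Coloring.mk F fun {u v} huv h6 => ?_⟩
  have h7 : s(u, v) ∈ E := by
    rw [← Finset.mem_coe, hE]
    exact huv
  refine hF _ h7 fun a ha b hb => ?_
  rcases Sym2.mem_iff.1 ha with rfl | rfl <;> rcases Sym2.mem_iff.1 hb with rfl | rfl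
  · rfl
  · exact h6
  · exact h6.symm
  · rfl

end Pool.Agent.Results.MP_7680f0_co.RandomColouring
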